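import Pool.Agent.TH742.HV.Main

set_option autoImplicit false

/-!
The Harari–Voloch statement in its closure form for `F = ℚ`, `S = {∞, p}` and
`X = ℙ¹ ∖ {∞, a_1, …, a_r}`, `r ≥ 2`.
-/

namespace Pool.Agent.Results.MP_78b700_nt.OneFinitePrimeOverQ

open Pool.Agent.TH742.HV

/-- For a prime `p`, `S = {∞, p}`, distinct rational numbers `a_1, …, a_r`, `r ≥ 2`,
`X = ℙ¹ ∖ {∞, a_1, …, a_r}` and `T = 𝔾_m^r ⊇ X`, the closure of `T(ℚ)` in `T(𝔸_ℚ^S)` meets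
`X(𝔸_ℚ^S)` exactly in `X(ℚ)`. -/
theorem result : ∀ p : ℕ, p.Prime → ∀ r : ℕ, 2 ≤ r → ∀ a : Fin r → ℚ, Function.Injective a →
    closure (rationalTorus p r) ∩ adelicPoints p a = rationalPoints p a :=
  fun p hp r hr a ha => main p hp r hr a ha

end Pool.Agent.Results.MP_78b700_nt.OneFinitePrimeOverQ
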